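import Pool.Agent.W206.YP.Stm

/-!
# YP-CMA: singular moduli are algebraic, `0` is one
-/

set_option autoImplicit false

namespace Pool.Agent.W357.YP.CMA

open UpperHalfPlane ModularForm Function MatrixGroups H294ZP Pool.Agent.W206.YP

theorem alg (x : ℂ) (h : CMv x) : ∃ c : Qb, (c : ℂ) = x := by
  obtain ⟨τ, hτ, rfl⟩ := h
  have h1 : IsIntegral ℤ (jj τ) := singular_modulus_integral τ hτ
  have h2 : IsAlgebraic ℚ (jj τ) := by
    have h3 : IsIntegral ℚ (jj τ) := h1.tower_top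
    exact h3.isAlgebraic
  exact ⟨⟨jj τ, (mem_algebraicClosure_iff).2 h2⟩, rfl⟩

/-- `rho` -/
noncomputable def rho : ℍ := ⟨⟨-1 / 2, Real.sqrt 3 / 2⟩, by positivity⟩

theorem rho_sq : ((rho : ℍ) : ℂ) ^ 2 + (rho : ℂ) + 1 = 0 := by
  have h3 : Real.sqrt 3 * Real.sqrt 3 = 3 := Real.mul_self_sqrt (by norm_num)
  apply Complex.ext
  · simp [rho, sq]
    nlinarith [h3]
  · simp [rho, sq]
    ring

theorem E4_rho : E₄ rho = 0 := by
  have hw : (rho : ℂ) * (((1 : ℤ) : ℂ) * (rho : ℂ) + ((1 : ℤ) : ℂ)) =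
      ((0 : ℤ) : ℂ) * (rho : ℂ) + ((-1 : ℤ) : ℂ) := by
    push_cast
    linear_combination rho_sq
  let γ : SL(2, ℤ) := ⟨!![0, -1; 1, 1], by rw [Matrix.det_fin_two_of]; norm_num⟩
  have hne : ((1 : ℤ) : ℂ) * (rho : ℂ) + ((1 : ℤ) : ℂ) ≠ 0 := by
    have := denom_ne_zero (γ : GL (Fin 2) ℝ) rho
    rw [ModularGroup.denom_apply] at this
    simpa [γ] using this
  have hγ : γ • rho = rho := by
    apply UpperHalfPlane.ext
    rw [coe_specialLinearGroup_apply]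
    have h2 : ((rho : ℂ)) = (((0 : ℤ) : ℂ) * (rho : ℂ) + ((-1 : ℤ) : ℂ)) /
        (((1 : ℤ) : ℂ) * (rho : ℂ) + ((1 : ℤ) : ℂ)) := by
      rw [eq_div_iff hne]; exact hw
    conv_rhs => rw [h2]
    simp [γ]
  have h4 : E₄ (γ • rho) = (denom γ rho) ^ (4 : ℤ) * E₄ rho :=
    SlashInvariantForm.slash_action_eqn' E₄ (MonoidHom.mem_range.mpr ⟨γ, rfl⟩) rho
  rw [hγ] at h4
  have hd : denom γ rho = (rho : ℂ) + 1 := by
    rw [ModularGroup.denom_apply]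
    simp [γ]
  rw [hd] at h4
  have h5 : ((rho : ℂ) + 1) ^ (4 : ℤ) ≠ 1 := by
    have h6 : ((rho : ℂ) + 1) ^ (4 : ℤ) = ((rho : ℂ) + 1) ^ (4 : ℕ) := by norm_cast
    rw [h6]
    have h7 : ((rho : ℂ) + 1) ^ (4 : ℕ) = -(rho : ℂ) - 1 := by
      linear_combination ((rho : ℂ) ^ 2 + 3 * (rho : ℂ) + 2) * rho_sq
    rw [h7]
    intro h8
    have h9 := congrArg Complex.im h8
    simp [rho] at h9
  by_contra h0
  apply h5
  have h10 : (((rho : ℂ) + 1) ^ (4 : ℤ) - 1) * E₄ rho = 0 := by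
    rw [sub_mul, one_mul, ← h4, sub_self]
  rcases mul_eq_zero.1 h10 with h | h
  · exact sub_eq_zero.1 h
  · exact absurd h h0

theorem cm0 : CMv 0 := by
  refine ⟨rho, ⟨1, 1, 1, one_ne_zero, ?_⟩, ?_⟩
  · push_cast
    linear_combination rho_sq
  · unfold jj
    rw [E4_rho]
    simp

/-- **YP-CMA** -/
theorem main : S_CMA := ⟨alg, cm0⟩

end Pool.Agent.W357.YP.CMA
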